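import Pool.Agent.L7h21.NQ.Star

/-! [INJ] of project NQ (helper52). -/

namespace Pool.Agent.L7h21.NQ

open MvPolynomial Pool.Agent.L7h52.NQ

variable {F : Type} [Field F]

/-- a form of the restriction of a sum -/
noncomputable def Tm (a b : F) (e x y : ℕ) : Polynomial F :=
  (Polynomial.C a - Polynomial.X) ^ (2 * (e - y)) * (Polynomial.C b - Polynomial.X) ^ (2 * (e - x)) *
    Polynomial.X ^ (x + y)

theorem key {ι : Type} (a b : F) (hab : (a - b) * (a + b) ≠ 0) (hb : b ≠ 0) (S : Finset ι) (c : ι → F)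
    (x y : ι → ℕ) (e I : ℕ) (hI : 1 ≤ I) (hIe : I ≤ e) (hx : ∀ s ∈ S, x s ≤ I)
    (hy : ∀ s ∈ S, x s = I → y s ≤ 1)
    (hz : ∑ s ∈ S, Polynomial.C (c s) * Tm a b e (x s) (y s) = 0) :
    (∑ s ∈ S with (x s = I ∧ y s = 0), c s = 0) ∧ ∑ s ∈ S with (x s = I ∧ y s = 1), c s = 0 := by
  classical
  set A := ∑ s ∈ S with (x s = I ∧ y s = 0), c s with hA
  set B := ∑ s ∈ S with (x s = I ∧ y s = 1), c s with hB
  set u : Polynomial F := Polynomial.C a - Polynomial.X with hu
  set v : Polynomial F := Polynomial.C b - Polynomial.X with hv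
  have hv0 : v ≠ 0 := by
    intro h
    have := congrArg (fun q => Polynomial.coeff q 1) h
    simp [hv] at this
  have hz2 : ∑ s ∈ S, Polynomial.C (c s) * (u ^ (2 * (e - y s)) * v ^ (2 * (I - x s)) *
      Polynomial.X ^ (x s + y s)) = 0 := by
    have h1 : v ^ (2 * (e - I)) * ∑ s ∈ S, Polynomial.C (c s) * (u ^ (2 * (e - y s)) *
        v ^ (2 * (I - x s)) * Polynomial.X ^ (x s + y s)) = 0 := by
      rw [← hz, Finset.mul_sum]
      refine Finset.sum_congr rfl fun s hs => ?_
      unfold Tm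
      have h2 : 2 * (e - x s) = 2 * (e - I) + 2 * (I - x s) := by
        have := hx s hs
        omega
      rw [h2, pow_add]
      ring
    exact (mul_eq_zero.1 h1).resolve_left (pow_ne_zero _ hv0)
  rw [← Finset.sum_filter_add_sum_filter_not S (fun s => x s = I)] at hz2
  have hd : v ^ 2 ∣ ∑ s ∈ S with ¬ x s = I, Polynomial.C (c s) * (u ^ (2 * (e - y s)) *
      v ^ (2 * (I - x s)) * Polynomial.X ^ (x s + y s)) := by
    refine Finset.dvd_sum fun s hs => ?_
    obtain ⟨hs1, hs2⟩ := Finset.mem_filter.1 hs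
    have := hx s hs1
    refine Dvd.dvd.mul_left ?_ _
    refine Dvd.dvd.mul_right ?_ _
    refine Dvd.dvd.mul_left ?_ _
    exact pow_dvd_pow _ (by omega)
  have hf : ∑ s ∈ S with x s = I, Polynomial.C (c s) * (u ^ (2 * (e - y s)) *
      v ^ (2 * (I - x s)) * Polynomial.X ^ (x s + y s)) =
      u ^ (2 * (e - 1)) * Polynomial.X ^ I * (Polynomial.C A * u ^ 2 + Polynomial.C B * Polynomial.X) := by
    rw [← Finset.sum_filter_add_sum_filter_not (S.filter fun s => x s = I) (fun s => y s = 0)]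
    rw [Finset.filter_filter, Finset.filter_filter]
    have e1 : ∑ s ∈ S with (x s = I ∧ y s = 0), Polynomial.C (c s) * (u ^ (2 * (e - y s)) *
        v ^ (2 * (I - x s)) * Polynomial.X ^ (x s + y s)) =
        Polynomial.C A * (u ^ (2 * (e - 1)) * Polynomial.X ^ I * u ^ 2) := by
      rw [hA, map_sum, Finset.sum_mul]
      refine Finset.sum_congr rfl fun s hs => ?_
      obtain ⟨_, hs2, hs3⟩ := Finset.mem_filter.1 hs
      rw [hs2, hs3]
      have h2 : 2 * (e - 0) = 2 * (e - 1) + 2 := by omega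
      rw [h2, pow_add, Nat.sub_self, mul_zero, pow_zero, add_zero]
      ring
    have e2 : ∑ s ∈ S with (x s = I ∧ ¬ y s = 0), Polynomial.C (c s) * (u ^ (2 * (e - y s)) *
        v ^ (2 * (I - x s)) * Polynomial.X ^ (x s + y s)) =
        Polynomial.C B * (u ^ (2 * (e - 1)) * Polynomial.X ^ I * Polynomial.X) := by
      have h3 : (S.filter fun s => x s = I ∧ ¬ y s = 0) = S.filter fun s => x s = I ∧ y s = 1 := by
        refine Finset.filter_congr fun s hs => ?_
        constructor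
        · rintro ⟨h1, h2⟩
          have := hy s hs h1
          exact ⟨h1, by omega⟩
        · rintro ⟨h1, h2⟩
          exact ⟨h1, by omega⟩
      rw [h3, hB, map_sum, Finset.sum_mul]
      refine Finset.sum_congr rfl fun s hs => ?_
      obtain ⟨_, hs2, hs3⟩ := Finset.mem_filter.1 hs
      rw [hs2, hs3, Nat.sub_self, mul_zero, pow_zero, pow_succ]
      ring
    rw [e1, e2]
    ring
  rw [hf] at hz2
  have hd2 : v ^ 2 ∣ u ^ (2 * (e - 1)) * Polynomial.X ^ I *
      (Polynomial.C A * u ^ 2 + Polynomial.C B * Polynomial.X) := by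
    rw [eq_neg_of_add_eq_zero_left hz2]
    exact (dvd_neg).2 hd
  have hanb : a - b ≠ 0 := left_ne_zero_of_mul hab
  have hcu : IsCoprime v u := by
    refine ⟨-Polynomial.C (a - b)⁻¹, Polynomial.C (a - b)⁻¹, ?_⟩
    have : -Polynomial.C (a - b)⁻¹ * v + Polynomial.C (a - b)⁻¹ * u =
        Polynomial.C (a - b)⁻¹ * Polynomial.C (a - b) := by
      rw [hu, hv, Polynomial.C_sub]
      ring
    rw [this, ← Polynomial.C_mul, inv_mul_cancel₀ hanb, Polynomial.C_1]
  have hcz : IsCoprime v Polynomial.X := by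
    refine ⟨Polynomial.C b⁻¹, Polynomial.C b⁻¹, ?_⟩
    have : Polynomial.C b⁻¹ * v + Polynomial.C b⁻¹ * Polynomial.X =
        Polynomial.C b⁻¹ * Polynomial.C b := by
      rw [hv]
      ring
    rw [this, ← Polynomial.C_mul, inv_mul_cancel₀ hb, Polynomial.C_1]
  have hco : IsCoprime (v ^ 2) (u ^ (2 * (e - 1)) * Polynomial.X ^ I) :=
    IsCoprime.pow_left (IsCoprime.mul_right hcu.pow_right hcz.pow_right)
  have hd3 := hco.dvd_of_dvd_mul_left hd2
  have hd4 : (Polynomial.C A * u ^ 2 + Polynomial.C B * Polynomial.X) - 0 ∈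
      Ideal.span {(Polynomial.X - Polynomial.C b) ^ 2} := by
    rw [sub_zero, Ideal.mem_span_singleton]
    have : (Polynomial.X - Polynomial.C b) ^ 2 = v ^ 2 := by rw [hv]; ring
    rw [this]
    exact hd3
  obtain ⟨h1, h2⟩ := deriv_of_dvd hd4
  rw [hu] at h1 h2
  simp only [Polynomial.eval_add, Polynomial.eval_mul, Polynomial.eval_C, Polynomial.eval_pow,
    Polynomial.eval_sub, Polynomial.eval_X, Polynomial.eval_zero, Polynomial.derivative_add,
    Polynomial.derivative_mul, Polynomial.derivative_C, Polynomial.derivative_pow,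
    Polynomial.derivative_sub, Polynomial.derivative_X, Polynomial.derivative_zero, zero_mul,
    zero_add, Polynomial.eval_one, zero_sub, mul_one, Polynomial.eval_neg] at h1 h2
  norm_num at h2
  have hA0 : A * ((a - b) * (a + b)) = 0 := by linear_combination h1 - b * h2
  have hA1 : A = 0 := (mul_eq_zero.1 hA0).resolve_right hab
  refine ⟨hA1, ?_⟩
  rw [hA1] at h2
  linear_combination h2

theorem descend {ι : Type} (a b : F) (hab : (a - b) * (a + b) ≠ 0) (hb : b ≠ 0) (S : Finset ι)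
    (c : ι → F) (x y : ι → ℕ) (e : ℕ) (hc : ∀ s ∈ S, c s ≠ 0)
    (hinj : ∀ s ∈ S, ∀ t ∈ S, x s = x t → y s = y t → s = t) (hxe : ∀ s ∈ S, x s ≤ e)
    (hz : ∑ s ∈ S, Polynomial.C (c s) * Tm a b e (x s) (y s) = 0) (J : ℕ)
    (h : ∀ s ∈ S, J < x s → y s ≤ 1) : ∀ s ∈ S, x s ≤ J := by
  classical
  by_contra hcon
  push Not at hcon
  obtain ⟨s0, hs0, hlt⟩ := hcon
  obtain ⟨s, hs, hmax⟩ := Finset.exists_max_image S x ⟨s0, hs0⟩
  have h0 := hmax s0 hs0
  obtain ⟨h1, h2⟩ := key a b hab hb S c x y e (x s) (by omega) (hxe s hs) hmax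
    (fun t ht hts => h t ht (by omega)) hz
  have hy := h s hs (by omega)
  have hcases : y s = 0 ∨ y s = 1 := by omega
  rcases hcases with h3 | h3
  · rw [Finset.sum_eq_single_of_mem s (Finset.mem_filter.2 ⟨hs, rfl, h3⟩)] at h1
    · exact hc s hs h1
    · intro t ht hne
      obtain ⟨ht1, ht2, ht3⟩ := Finset.mem_filter.1 ht
      exact absurd (hinj t ht1 s hs ht2 (by omega)) hne
  · rw [Finset.sum_eq_single_of_mem s (Finset.mem_filter.2 ⟨hs, rfl, h3⟩)] at h2
    · exact hc s hs h2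
    · intro t ht hne
      obtain ⟨ht1, ht2, ht3⟩ := Finset.mem_filter.1 ht
      exact absurd (hinj t ht1 s hs ht2 (by omega)) hne

theorem pull_sum (g : MvPolynomial (ZMod 3) F) : pull g = ∑ m ∈ g.support,
    Polynomial.C (g.coeff m) * (pt0 F 0 ^ m 0 * pt0 F 1 ^ m 1 * pt0 F 2 ^ m 2) := by
  unfold pull
  rw [aeval_def, eval₂_eq']
  refine Finset.sum_congr rfl fun m _ => ?_
  have : ∏ i : ZMod 3, pt0 F i ^ m i = pt0 F 0 ^ m 0 * pt0 F 1 ^ m 1 * pt0 F 2 ^ m 2 :=
    Fin.prod_univ_three _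
  rw [this]
  rfl

theorem deg_sum {e : ℕ} {g : MvPolynomial (ZMod 3) F} (hg : g.IsHomogeneous e) {m : ZMod 3 →₀ ℕ}
    (hm : m ∈ g.support) : m 0 + m 1 + m 2 = e := by
  have h := hg (mem_support_iff.1 hm)
  rw [Finsupp.weight_apply, Finsupp.sum_fintype _ _ (by simp)] at h
  simp only [Pi.one_apply, smul_eq_mul, mul_one] at h
  rw [← h]
  exact (Fin.sum_univ_three (fun l => m l)).symm

theorem s_INJ : S_INJ := by
  intro F _ _ e g hg hR hne hG
  have hsum := pull_sum g
  rw [hG] at hsum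
  have c3eq : Polynomial.C (3 : F) = 3 := map_ofNat _ 3
  have h12 : ∑ m ∈ g.support, Polynomial.C (g.coeff m) * Tm (1 : F) 3 e (m 1) (m 2) = 0 := by
    rw [hsum]
    refine Finset.sum_congr rfl fun m hm => ?_
    have hd := deg_sum hg hm
    rw [pt0_zero, pt0_one, pt0_two]
    unfold Tm
    have h1 : e - m 2 = m 0 + m 1 := by omega
    have h2 : e - m 1 = m 0 + m 2 := by omega
    rw [h1, h2, Polynomial.C_1, c3eq]
    generalize (1 - Polynomial.X : Polynomial F) = u
    generalize (3 - Polynomial.X : Polynomial F) = v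
    ring
  have h21 : ∑ m ∈ g.support, Polynomial.C (g.coeff m) * Tm (3 : F) 1 e (m 2) (m 1) = 0 := by
    rw [hsum]
    refine Finset.sum_congr rfl fun m hm => ?_
    have hd := deg_sum hg hm
    rw [pt0_zero, pt0_one, pt0_two]
    unfold Tm
    have h1 : e - m 2 = m 0 + m 1 := by omega
    have h2 : e - m 1 = m 0 + m 2 := by omega
    rw [h1, h2, Polynomial.C_1, c3eq]
    generalize (1 - Polynomial.X : Polynomial F) = u
    generalize (3 - Polynomial.X : Polynomial F) = v
    ring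
  have hc : ∀ m ∈ g.support, g.coeff m ≠ 0 := fun m hm => mem_support_iff.1 hm
  have hext : ∀ m ∈ g.support, ∀ n ∈ g.support, m 1 = n 1 → m 2 = n 2 → m = n := by
    intro m hm n hn h1 h2
    have hd1 := deg_sum hg hm
    have hd2 := deg_sum hg hn
    refine Finsupp.ext (all3 ?_ h1 h2)
    omega
  have n1 : ((1 : F) - 3) * (1 + 3) ≠ 0 := by norm_num
  have n2 : ((3 : F) - 1) * (3 + 1) ≠ 0 := by norm_num
  have c1 := descend (3 : F) 1 n2 one_ne_zero g.support g.coeff (fun m => m 2) (fun m => m 1) e hc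
    (fun m hm n hn h2 h1 => hext m hm n hn h1 h2)
    (fun m hm => by have := deg_sum hg hm; show m 2 ≤ e; omega) h21 1
    (fun m hm h => by
      have h : 1 < m 2 := h
      have := hR m hm
      show m 1 ≤ 1
      omega)
  have c2 := descend (1 : F) 3 n1 (by norm_num) g.support g.coeff (fun m => m 1) (fun m => m 2) e hc
    hext (fun m hm => by have := deg_sum hg hm; show m 1 ≤ e; omega) h12 0
    (fun m hm _ => c1 m hm)
  have c3 := descend (3 : F) 1 n2 one_ne_zero g.support g.coeff (fun m => m 2) (fun m => m 1) e hc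
    (fun m hm n hn h2 h1 => hext m hm n hn h1 h2)
    (fun m hm => by have := deg_sum hg hm; show m 2 ≤ e; omega) h21 0
    (fun m hm _ => (c2 m hm).trans (Nat.zero_le _))
  obtain ⟨m, hm⟩ := support_nonempty.2 hne
  have hs : g.support = {m} := by
    refine Finset.eq_singleton_iff_unique_mem.2 ⟨hm, fun n hn => ?_⟩
    have a1 := c2 m hm
    have a2 := c3 m hm
    have a3 := c2 n hn
    have a4 := c3 n hn
    exact hext n hn m hm (by omega) (by omega)
  rw [hs, Finset.sum_singleton] at h12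
  rcases mul_eq_zero.1 h12 with h | h
  · exact hc m hm (Polynomial.C_eq_zero.1 h)
  · unfold Tm at h
    have hv0 : ∀ b : F, Polynomial.C b - Polynomial.X ≠ 0 := by
      intro b h
      have := congrArg (fun q => Polynomial.coeff q 1) h
      simp at this
    exact mul_ne_zero (mul_ne_zero (pow_ne_zero _ (hv0 _)) (pow_ne_zero _ (hv0 _)))
      (pow_ne_zero _ Polynomial.X_ne_zero) h

end Pool.Agent.L7h21.NQ
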