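import Pool.Agent.L7h52.NQ.Stm

/-! [STAR] of project NQ (helper52). -/

namespace Pool.Agent.L7h21.NQ

open MvPolynomial Pool.Agent.L7h52.NQ

variable {F : Type} [Field F]

theorem pt0_zero : pt0 F 0 = ((1 - Polynomial.X) * (3 - Polynomial.X)) ^ 2 := by
  unfold pt0
  rw [vec_zero]
  unfold dD
  ring

theorem pt0_one : pt0 F 1 = Polynomial.X * (1 - Polynomial.X) ^ 2 := by
  unfold pt0
  rw [vec_one]
  unfold dA
  ring

theorem pt0_two : pt0 F 2 = Polynomial.X * (3 - Polynomial.X) ^ 2 := by
  unfold pt0
  rw [vec_two]
  unfold dB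
  ring

theorem all3 {P : ZMod 3 → Prop} (h0 : P 0) (h1 : P 1) (h2 : P 2) : ∀ l, P l := by
  intro l
  fin_cases l
  · exact h0
  · exact h1
  · exact h2

/-- congruences -/
theorem aeval_congr_mod {p q : ZMod 3 → Polynomial F} {I : Ideal (Polynomial F)}
    (h : ∀ l, p l - q l ∈ I) (g : MvPolynomial (ZMod 3) F) : aeval p g - aeval q g ∈ I := by
  rw [← Ideal.Quotient.mk_eq_mk_iff_sub_mem]
  have h1 : ∀ r : ZMod 3 → Polynomial F, (Ideal.Quotient.mk I) (aeval r g) =
      eval₂ ((Ideal.Quotient.mk I).comp Polynomial.C) (fun l => (Ideal.Quotient.mk I) (r l)) g := by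
    intro r
    rw [aeval_def, hom_eval₂]
    rfl
  rw [h1, h1]
  congr 1
  funext l
  exact (Ideal.Quotient.mk_eq_mk_iff_sub_mem _ _).2 (h l)

theorem homog_one {e : ℕ} {g : MvPolynomial (ZMod 3) F} (hg : g.IsHomogeneous e)
    (a : Polynomial F) (i : ZMod 3) : aeval (fun l => if l = i then a else 0) g =
      Polynomial.C (g.coeff (Finsupp.single i e)) * a ^ e := by
  rw [aeval_def, eval₂_eq]
  rw [Finset.sum_eq_single (Finsupp.single i e)]
  · congr 1
    by_cases he : e = 0
    · subst he
      simp
    · rw [Finsupp.support_single_ne_zero _ he, Finset.prod_singleton, if_pos rfl,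
        Finsupp.single_eq_same]
  · intro m hm hne
    have hdeg := hg (mem_support_iff.1 hm)
    have : ∃ l ∈ m.support, l ≠ i := by
      by_contra hcon
      push Not at hcon
      apply hne
      ext l
      by_cases hl : l = i
      · subst hl
        rw [Finsupp.single_eq_same]
        rw [Finsupp.weight_apply, Finsupp.sum] at hdeg
        simp only [Pi.one_apply, smul_eq_mul, mul_one] at hdeg
        rw [← hdeg]
        rw [Finset.sum_subset (s₂ := {l}) (fun x hx => Finset.mem_singleton.2 (hcon x hx))
          (fun x _ hx => Finsupp.notMem_support_iff.1 hx), Finset.sum_singleton]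
      · rw [Finsupp.single_eq_of_ne hl]
        by_contra h
        exact hl (hcon l (Finsupp.mem_support_iff.2 h))
    obtain ⟨l, hl, hli⟩ := this
    rw [Finset.prod_eq_zero hl, mul_zero]
    rw [if_neg hli, zero_pow (Finsupp.mem_support_iff.1 hl)]
  · intro h
    rw [notMem_support_iff.1 h, map_zero, zero_mul]

/-- the value of the derivative at a double point -/
theorem deriv_of_dvd {G H : Polynomial F} {c : F}
    (h : G - H ∈ Ideal.span {(Polynomial.X - Polynomial.C c) ^ 2}) :
    G.eval c = H.eval c ∧ (Polynomial.derivative G).eval c = (Polynomial.derivative H).eval c := by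
  rw [Ideal.mem_span_singleton] at h
  obtain ⟨K, hK⟩ := h
  have hG : G = H + (Polynomial.X - Polynomial.C c) ^ 2 * K := by rw [← hK]; ring
  rw [hG]
  constructor
  · simp
  · simp [Polynomial.derivative_pow]

theorem star_one {e : ℕ} {g : MvPolynomial (ZMod 3) F} (hg : g.IsHomogeneous e) :
    (Polynomial.derivative (pull g)).eval 1 = 0 := by
  have h := aeval_congr_mod (p := pt0 F) (q := fun l => if l = 2 then (4 : Polynomial F) else 0)
    (I := Ideal.span {(Polynomial.X - Polynomial.C (1 : F)) ^ 2}) (all3 (by
      rw [pt0_zero, if_neg (by decide), sub_zero, Ideal.mem_span_singleton]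
      exact ⟨(3 - Polynomial.X) ^ 2, by rw [Polynomial.C_1]; ring⟩) (by
      rw [pt0_one, if_neg (by decide), sub_zero, Ideal.mem_span_singleton]
      exact ⟨Polynomial.X, by rw [Polynomial.C_1]; ring⟩) (by
      rw [pt0_two, if_pos rfl, Ideal.mem_span_singleton]
      exact ⟨Polynomial.X - 4, by rw [Polynomial.C_1]; ring⟩)) g
  rw [homog_one hg] at h
  have h2 := (deriv_of_dvd h).2
  unfold pull
  rw [h2]
  have h4 : (4 : Polynomial F) = Polynomial.C 4 := by
    rw [map_ofNat]
  rw [h4, ← Polynomial.C_pow, ← Polynomial.C_mul, Polynomial.derivative_C, Polynomial.eval_zero]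

theorem star_three {e : ℕ} {g : MvPolynomial (ZMod 3) F} (hg : g.IsHomogeneous e) :
    3 * (Polynomial.derivative (pull g)).eval 3 = 4 * e * (pull g).eval 3 := by
  have h := aeval_congr_mod (p := pt0 F)
    (q := fun l => if l = 1 then (16 * Polynomial.X - 36 : Polynomial F) else 0)
    (I := Ideal.span {(Polynomial.X - Polynomial.C (3 : F)) ^ 2}) (all3 (by
      rw [pt0_zero, if_neg (by decide), sub_zero, Ideal.mem_span_singleton]
      exact ⟨(1 - Polynomial.X) ^ 2, by rw [map_ofNat]; ring⟩) (by
      rw [pt0_one, if_pos rfl, Ideal.mem_span_singleton]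
      exact ⟨Polynomial.X + 4, by rw [map_ofNat]; ring⟩) (by
      rw [pt0_two, if_neg (by decide), sub_zero, Ideal.mem_span_singleton]
      exact ⟨Polynomial.X, by rw [map_ofNat]; ring⟩)) g
  rw [homog_one hg] at h
  obtain ⟨h1, h2⟩ := deriv_of_dvd h
  unfold pull
  rw [h1, h2]
  rcases Nat.eq_zero_or_pos e with he | he
  · subst he
    simp
  · obtain ⟨n, rfl⟩ : ∃ n, e = n + 1 := ⟨e - 1, by omega⟩
    rw [Polynomial.derivative_C_mul, Polynomial.derivative_pow]
    simp only [Polynomial.derivative_sub, Polynomial.derivative_mul, Polynomial.derivative_X,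
      Polynomial.derivative_ofNat, Polynomial.eval_mul, Polynomial.eval_C, Polynomial.eval_pow,
      Polynomial.eval_sub, Polynomial.eval_X, Polynomial.eval_ofNat, Polynomial.eval_add,
      Polynomial.eval_one, Polynomial.eval_natCast, Polynomial.eval_zero]
    push_cast
    ring_nf

theorem natDegree_pt0 (l : ZMod 3) : (pt0 F l).natDegree ≤ 4 := by
  have h1 : (1 - Polynomial.X : Polynomial F).natDegree ≤ 1 :=
    (Polynomial.natDegree_sub_le _ _).trans (by
      rw [Polynomial.natDegree_one, Polynomial.natDegree_X]; norm_num)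
  have h3 : (3 - Polynomial.X : Polynomial F).natDegree ≤ 1 :=
    (Polynomial.natDegree_sub_le _ _).trans (by
      rw [Polynomial.natDegree_X, Polynomial.natDegree_ofNat]; norm_num)
  have hX : (Polynomial.X : Polynomial F).natDegree ≤ 1 := Polynomial.natDegree_X_le
  revert l
  refine all3 ?_ ?_ ?_
  · rw [pt0_zero]
    refine (Polynomial.natDegree_pow_le).trans ?_
    have := (Polynomial.natDegree_mul_le (p := (1 - Polynomial.X : Polynomial F))
      (q := 3 - Polynomial.X)).trans (Nat.add_le_add h1 h3)
    omega
  · rw [pt0_one]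
    have h4 := Polynomial.natDegree_pow_le (p := (1 - Polynomial.X : Polynomial F)) (n := 2)
    have := Polynomial.natDegree_mul_le (p := (Polynomial.X : Polynomial F))
      (q := (1 - Polynomial.X) ^ 2)
    omega
  · rw [pt0_two]
    have h4 := Polynomial.natDegree_pow_le (p := (3 - Polynomial.X : Polynomial F)) (n := 2)
    have := Polynomial.natDegree_mul_le (p := (Polynomial.X : Polynomial F))
      (q := (3 - Polynomial.X) ^ 2)
    omega

theorem s_STAR : S_STAR := by
  intro F _ _ e g hg hG
  have hdeg : (pull g).natDegree ≤ 4 * e := by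
    rw [mul_comm]
    exact aeval_natDegree_le g hg.totalDegree_le _ natDegree_pt0
  refine ⟨hdeg, ?_⟩
  have h1 := star_one hg
  have h3 := star_three hg
  set G := pull g with hGdef
  have htr := Polynomial.natTrailingDegree_le_natDegree G
  set k := G.natTrailingDegree with hk
  set n := G.natDegree with hn
  have hlow : ∀ i, i < k → G.coeff i = 0 := fun i hi =>
    Polynomial.coeff_eq_zero_of_lt_natTrailingDegree hi
  have hhigh : ∀ i, n < i → G.coeff i = 0 := fun i hi =>
    Polynomial.coeff_eq_zero_of_natDegree_lt hi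
  have hka : G.coeff k ≠ 0 := by
    have := Polynomial.trailingCoeff_nonzero_iff_nonzero.2 hG
    exact this
  have hnb : G.coeff n ≠ 0 := Polynomial.leadingCoeff_ne_zero.2 hG
  have h30 : (3 : F) ≠ 0 := by norm_num
  -- the case of a monomial
  have case1 : n = k → e = 0 := by
    intro hnk
    have hGk : G = Polynomial.C (G.coeff k) * Polynomial.X ^ k := by
      ext i
      rw [Polynomial.coeff_C_mul_X_pow]
      split_ifs with h
      · rw [h]
      · rcases lt_or_gt_of_ne h with h' | h'
        · exact hlow i h'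
        · exact hhigh i (by omega)
    rw [hGk] at h1 h3
    rw [Polynomial.derivative_C_mul_X_pow] at h1 h3
    simp only [Polynomial.eval_mul, Polynomial.eval_C, Polynomial.eval_pow, Polynomial.eval_X,
      one_pow, mul_one, Polynomial.coeff_C_mul_X_pow, if_true] at h1 h3
    have hk0 : (k : F) = 0 := (mul_eq_zero.1 h1).resolve_left hka
    rw [hk0, mul_zero, zero_mul, mul_zero] at h3
    have h5 : (4 * e : F) = 0 := by
      have h6 : (G.coeff k * 3 ^ k : F) ≠ 0 := mul_ne_zero hka (pow_ne_zero _ h30)
      exact (mul_eq_zero.1 h3.symm).resolve_right h6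
    have h7 : ((4 * e : ℕ) : F) = 0 := by push_cast; exact h5
    have h8 := Nat.cast_eq_zero.1 h7
    omega
  have case2 : n = k + 1 → e ≤ 1 := by
    intro hnk
    have hGk : G = Polynomial.C (G.coeff k) * Polynomial.X ^ k +
        Polynomial.C (G.coeff (k + 1)) * Polynomial.X ^ (k + 1) := by
      ext i
      rw [Polynomial.coeff_add, Polynomial.coeff_C_mul_X_pow, Polynomial.coeff_C_mul_X_pow]
      by_cases h : i = k
      · rw [if_pos h, if_neg (by omega), h, add_zero]
      · rw [if_neg h]
        by_cases h' : i = k + 1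
        · rw [if_pos h', h', zero_add]
        · rw [if_neg h', zero_add]
          rcases lt_or_gt_of_ne h with h'' | h''
          · exact hlow i h''
          · exact hhigh i (by omega)
    have hb : G.coeff (k + 1) ≠ 0 := by rw [← hnk]; exact hnb
    generalize G.coeff k = a at hGk hka
    generalize G.coeff (k + 1) = b at hGk hb
    rw [hGk] at h1 h3
    rw [Polynomial.derivative_add, Polynomial.derivative_C_mul_X_pow,
      Polynomial.derivative_C_mul_X_pow] at h1 h3
    simp only [Polynomial.eval_mul, Polynomial.eval_C, Polynomial.eval_pow, Polynomial.eval_X,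
      one_pow, mul_one, Polynomial.eval_add, Nat.add_sub_cancel, Nat.cast_add, Nat.cast_one] at h1 h3
    -- h1 : a k + b (k+1) = 0
    have h4 : a * (k - 4 * e) + 3 * (b * (k + 1 - 4 * e)) = 0 := by
      have h5 : (3 : F) ^ k * (a * (k - 4 * e) + 3 * (b * (k + 1 - 4 * e))) = 0 := by
        rcases Nat.eq_zero_or_pos k with hk0 | hk0
        · rw [hk0] at h3 ⊢
          simp only [Nat.cast_zero, mul_zero, zero_mul, zero_add, pow_zero, pow_one, mul_one,
            one_mul, zero_sub] at h3 ⊢
          linear_combination h3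
        · obtain ⟨j, hj⟩ : ∃ j, k = j + 1 := ⟨k - 1, by omega⟩
          rw [hj] at h3 ⊢
          simp only [Nat.add_sub_cancel] at h3
          push_cast at h3 ⊢
          linear_combination h3
      exact (mul_eq_zero.1 h5).resolve_left (pow_ne_zero _ h30)
    have h6 : a * (k * (3 * (k + 1 - 4 * e)) - (k + 1) * (k - 4 * e)) = 0 := by
      linear_combination (3 * ((k : F) + 1 - 4 * e)) * h1 - ((k : F) + 1) * h4
    have h7 := (mul_eq_zero.1 h6).resolve_left hka
    have h8 : (k : F) * (k + 1) + 2 * e = k * (4 * e) := by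
      have h9 : (2 : F) * ((k : F) * (k + 1) + 2 * e - k * (4 * e)) = 0 := by
        linear_combination h7
      have h10 := (mul_eq_zero.1 h9).resolve_left (by norm_num)
      linear_combination h10
    have h11 : k * (k + 1) + 2 * e = k * (4 * e) := by exact_mod_cast h8
    by_contra hcon
    push Not at hcon
    have hk1 : k + 1 ≤ 4 * e := by omega
    -- k (4e - 1 - k) = 2e
    obtain ⟨j, hj⟩ : ∃ j, 4 * e = k + 1 + j := ⟨4 * e - (k + 1), by omega⟩
    rw [hj] at h11
    have h12 : 2 * e = k * j := by nlinarith
    rcases Nat.eq_zero_or_pos k with hk0 | hk0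
    · rw [hk0] at h12; omega
    · rcases Nat.eq_zero_or_pos j with hj0 | hj0
      · rw [hj0] at h12; omega
      · have : k + j ≤ k * j + 1 := by nlinarith
        omega
  unfold bd
  split_ifs with he0 he1
  · subst he0
    omega
  · subst he1
    have : n ≠ k := fun h => by have := case1 h; omega
    omega
  · have h5 : n ≠ k := fun h => by have := case1 h; omega
    have h6 : n ≠ k + 1 := fun h => by have := case2 h; omega
    omega

end Pool.Agent.L7h21.NQ
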