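import Pool.Agent.L7h52.NQ.Stm2

/-! [EXT] of project NQ (helper52). -/

namespace Pool.Agent.L7h21.NQ

open Finset Pool.Agent.TH176.Nag Pool.Agent.TH469.SX Pool.Agent.L7h52.NQ
open Pool.Agent.TH864.SX (Slp)

theorem s_EXT : S_EXT := by
  intro K A m hS hA0 hA
  have hK16 : (16 : ℝ) < K := by
    have := hS.hMK
    push_cast at this
    exact this
  have hKeq : (2 : ℝ) * (K * (K - 16)) = 16 := by
    have := hS.eq
    push_cast at this
    exact this
  have hid : 2 * (K + 1) ^ 2 = 18 * (2 * K + 1) := by linear_combination hKeq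
  have hK0 : 0 < K := by linarith
  have hK1 : 0 < K + 1 := by linarith
  have hD0 : 0 < 2 * K + 1 := by linarith
  refine Emp_slabs 1 (-1) 1 0 (by ring) fun k B hB => ?_
  rw [sum_const' (Fintype.card_fin 18)]
  obtain ⟨y, hy⟩ : ∃ y : ℝ, y = A - (K + 1) * k := ⟨_, rfl⟩
  have hylt : y < (K + 1) * ((m : ℝ) - k) - 1 := by
    rw [hy]
    linarith
  have hmem : ∀ c ∈ B, ((1 ≤ c ∧ (c : ℝ) ≤ y) ∨ (c ≤ 0 ∧ (-c : ℝ) * (2 * K + 1) ≤ y - (K + 1))) ∨
      (c = -1 ∧ -1 ≤ y) := by
    intro c hc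
    obtain ⟨s, T, hT, h1, h2⟩ := hB c hc
    simp only [one_mul, zero_mul, neg_mul, sub_neg_eq_add, zero_add] at h1 h2
    have hbig : ((c + s, s) : ℤ × ℤ) ∈ Fl 2 K A → ((c + (s + T), s + T) : ℤ × ℤ) ∈ Fl 2 K A →
        (1 ≤ c ∧ (c : ℝ) ≤ y) ∨ (c ≤ 0 ∧ (-c : ℝ) * (2 * K + 1) ≤ y - (K + 1)) := by
      intro g1 g2
      have h := mem_row (p := 1) (q := 2) (K := K) (A := A) (by norm_num) hK0 (k := k) (c := c)
        (s := s) (T := T) hT (by rw [Nat.cast_one, one_mul]; exact g1)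
        (by rw [Nat.cast_one, one_mul]; exact g2)
      rw [Nat.cast_one, Nat.cast_ofNat, ← hy] at h
      rcases h with h | ⟨h3, h4⟩
      · exact Or.inl h
      · refine Or.inr ⟨h3, ?_⟩
        have e : (2 : ℝ) * (K + 1) - 1 = 2 * K + 1 := by ring
        rw [e] at h4
        exact h4
    by_cases hc1 : c = -1
    · right
      refine ⟨hc1, ?_⟩
      subst hc1
      rcases h1 with h1 | h1
      · rcases h2 with h2 | h2
        · rcases hbig h1 h2 with ⟨h3, _⟩ | ⟨_, h4⟩
          · omega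
          · push_cast at h4
            linarith
        · exfalso
          have h3 := (Prod.mk.inj h2).2
          obtain ⟨a1, a2, -, -⟩ := h1
          simp only at a1 a2
          omega
      · have hs := (Prod.mk.inj h1).2
        subst hs
        rcases h2 with h2 | h2
        · obtain ⟨a1, a2, a3, a4⟩ := h2
          simp only at a1 a2 a3 a4
          push_cast at a4
          have hTR : (k : ℝ) ≤ T := by exact_mod_cast hT
          have h4 : (K + 1) * k ≤ (K + 1) * T := mul_le_mul_of_nonneg_left hTR hK1.le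
          rw [hy]
          linarith
        · have h3 := (Prod.mk.inj h2).2
          have h4 : k = 0 := by omega
          subst h4
          rw [hy]
          push_cast
          linarith
    · left
      refine hbig ?_ ?_
      · rcases h1 with h1 | h1
        · exact h1
        · exfalso
          obtain ⟨h3, h4⟩ := Prod.mk.inj h1
          omega
      · rcases h2 with h2 | h2
        · exact h2
        · exfalso
          obtain ⟨h3, h4⟩ := Prod.mk.inj h2
          omega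
  rcases B.eq_empty_or_nonempty with he | hne
  · rw [he]
    simp
  -- the rows with an element
  have hym : -1 ≤ y := by
    obtain ⟨c, hc⟩ := hne
    rcases hmem c hc with (⟨h1, h2⟩ | ⟨h1, h2⟩) | ⟨h1, h2⟩
    · have : (1 : ℝ) ≤ c := by exact_mod_cast h1
      linarith
    · have h1R : (c : ℝ) ≤ 0 := by exact_mod_cast h1
      have : 0 ≤ (-c : ℝ) * (2 * K + 1) := mul_nonneg (by linarith) hD0.le
      linarith
    · exact h2
  have hkm : k < m := by
    have h1 : 0 < (K + 1) * ((m : ℝ) - k) := by linarith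
    have h2 : 0 < (m : ℝ) - k := (mul_pos_iff_of_pos_left hK1).1 h1
    have h3 : (k : ℝ) < m := by linarith
    exact_mod_cast h3
  obtain ⟨B', hB'⟩ : ∃ B' : Finset ℤ, B' = B.erase (-1) := ⟨_, rfl⟩
  have hcard : B.card ≤ B'.card + 1 := by
    have := Finset.pred_card_le_card_erase (s := B) (a := (-1 : ℤ))
    rw [hB']
    omega
  have hmem' : ∀ c ∈ B', (1 ≤ c ∧ (c : ℝ) ≤ y) ∨ (c ≤ 0 ∧ (-c : ℝ) * (2 * K + 1) ≤ y - (K + 1)) := by
    intro c hc
    rw [hB', Finset.mem_erase] at hc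
    rcases hmem c hc.2 with h | h
    · exact h
    · exact absurd h.1 hc.1
  rcases B'.eq_empty_or_nonempty with he | hne'
  · rw [he, Finset.card_empty] at hcard
    have h5 : 18 * 1 ≤ 18 * (m - k) := Nat.mul_le_mul_left _ (by omega)
    omega
  have hY1 : 1 ≤ y := by
    obtain ⟨c, hc⟩ := hne'
    rcases hmem' c hc with ⟨h1, h2⟩ | ⟨h1, h2⟩
    · have : (1 : ℝ) ≤ c := by exact_mod_cast h1
      linarith
    · have h1R : (c : ℝ) ≤ 0 := by exact_mod_cast h1
      have : 0 ≤ (-c : ℝ) * (2 * K + 1) := mul_nonneg (by linarith) hD0.le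
      linarith
  obtain ⟨Y, hY⟩ : ∃ Y : ℤ, Y = ⌊y⌋ := ⟨_, rfl⟩
  obtain ⟨U, hU⟩ : ∃ U : ℤ, U = ⌊(y - (K + 1)) / (2 * K + 1)⌋ := ⟨_, rfl⟩
  have hYR : (0 : ℤ) ≤ Y := by rw [hY]; exact Int.floor_nonneg.2 (by linarith)
  have hUR : (-1 : ℤ) ≤ U := by
    rw [hU]
    apply Int.le_floor.2
    rw [le_div_iff₀ hD0]
    push_cast
    linarith
  have hsub : B' ⊆ Finset.Icc (-U) Y := by
    intro c hc
    rw [Finset.mem_Icc]
    rcases hmem' c hc with ⟨h1, h2⟩ | ⟨h1, h2⟩
    · refine ⟨by omega, ?_⟩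
      rw [hY]
      exact Int.le_floor.2 h2
    · refine ⟨?_, by omega⟩
      have : -c ≤ U := by
        rw [hU]
        apply Int.le_floor.2
        rw [le_div_iff₀ hD0]
        push_cast
        exact h2
      omega
  have hcB : (B'.card : ℤ) ≤ Y + U + 1 := by
    have h1 := card_le_card hsub
    rw [Int.card_Icc] at h1
    omega
  have hYU : ((Y + U : ℤ) : ℝ) < ((18 * ((m : ℤ) - k) - 1 : ℤ) : ℝ) := by
    have h1 := Int.floor_le y
    have h2 := Int.floor_le ((y - (K + 1)) / (2 * K + 1))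
    rw [← hY] at h1
    rw [← hU] at h2
    rw [le_div_iff₀ hD0] at h2
    push_cast
    have h3 : ((Y : ℝ) + U) * (2 * K + 1) < (18 * ((m : ℝ) - k) - 1) * (2 * K + 1) := by
      have h4 : (Y : ℝ) * (2 * K + 1) ≤ y * (2 * K + 1) := mul_le_mul_of_nonneg_right h1 hD0.le
      have h5 : (K + 1) * y < (K + 1) * ((K + 1) * ((m : ℝ) - k) - 1) :=
        mul_lt_mul_of_pos_left hylt hK1
      have e : (18 * ((m : ℝ) - k) - 1) * (2 * K + 1) =
          2 * (K + 1) ^ 2 * ((m : ℝ) - k) - (2 * K + 1) := by rw [hid]; ring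
      rw [e]
      nlinarith
    exact lt_of_mul_lt_mul_right h3 hD0.le
  have hYUZ := Int.cast_lt.1 hYU
  have hfin : (B.card : ℤ) ≤ ((18 * (m - k) : ℕ) : ℤ) := by
    push_cast [Nat.cast_sub hkm.le]
    omega
  exact_mod_cast hfin

end Pool.Agent.L7h21.NQ
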